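import Pool.Agent.H47.Vin.Glue
import Pool.Agent.H27.Vin.Inst
import Pool.Agent.H20.Vin.ParI
import Pool.Agent.H20.Vin.Xb

/-!
# An inner function in `M_p A`, `4/3 ≤ p ≤ 4`, with a nontrivial singular inner factor
-/

namespace Pool.Agent.Results.MP_dea278_an.SingularInnerMultiplier

open Pool.Agent.H36.Vin Pool.Agent.H47.Vin

/-- The stage symbols of the chosen parameters form uniformly bounded products on `l^4`. -/
theorem n4_prod_le (i K : ℕ) (f : W) :
    n4 ((∏ j ∈ Finset.range K, P0.Ph (i + 1 + j)) * f) ≤ 100003 * n4 f := by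
  have h := mthm_shift mhyp0 (i + 1) K f
  have he : ∀ j, P0.Ph (i + 1 + j) = Ph p0 r0 I0 m0 (j + (i + 1)) := by
    intro j
    unfold Par.Ph Ph Par.I
    rw [P0_p, P0_r, P0_n, P0_m, P0_p]
    unfold p0 r0 I0 m0 p0
    rw [show i + 1 + j = j + (i + 1) by ring,
      show 2 * (50 * (j + (i + 1) + 1)) = 100 * (j + (i + 1) + 1) by ring]
  simp only [he]
  exact h

/-- There is an inner function `Θ` which belongs to `M_p A` for all `4/3 ≤ p ≤ 4`, which is the
product of the singular inner function `exp (-(1+z)/(1-z))` and an inner function `J`, and which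
is not a Blaschke product. -/
theorem result : ∃ Θ J : ℂ → ℂ, IsInner Θ ∧ IsInner J ∧
    (∀ z ∈ Metric.ball (0 : ℂ) 1, Θ z = Complex.exp (-(1 + z) / (1 - z)) * J z) ∧
    (∀ p : ENNReal, 4 / 3 ≤ p → p ≤ 4 → MemMpA p Θ) ∧ ¬ IsBlaschke Θ :=
  P0.main_of (by norm_num) n4_prod_le P0.norm_ev_X_le

end Pool.Agent.Results.MP_dea278_an.SingularInnerMultiplier
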